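import Mathlib
import Pool.Agent.Lib.MP_04d7a1_pr.Defs
import Pool.Agent.Lib.MP_04d7a1_pr.Example
import Pool.Agent.Lib.MP_04d7a1_pr.Super

open MeasureTheory
open scoped ENNReal NNReal

namespace Pool.Agent.Results.MP_04d7a1_pr.Counterexample

open Pool.Agent.Lib.MP_04d7a1_pr

/-- Negated form of Q1: a law of `L` with infinite second moment of `|H| = L + 1` and positive
(finite) critical intensity. -/
theorem result :
    ∃ μ : Measure ℕ, IsProbabilityMeasure μ ∧ ∫⁻ L, ((L : ℝ≥0∞) + 1) ^ 2 ∂μ = ⊤ ∧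
      0 < critical μ ∧ critical μ < ⊤ :=
  ⟨exLaw, inferInstance, exLaw_second_moment, critical_pos exLaw_tail, critical_lt_top⟩

end Pool.Agent.Results.MP_04d7a1_pr.Counterexample
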