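import Mathlib
import Pool.Agent.Lib.MP_04d7a1_pr.Defs
import Pool.Agent.Lib.MP_04d7a1_pr.Super

open MeasureTheory
open scoped ENNReal NNReal

namespace Pool.Agent.Results.MP_04d7a1_pr.Criterion

open Pool.Agent.Lib.MP_04d7a1_pr

/-- Exact criterion for lattice rays: the critical intensity is positive if and only if
`r ^ 2 * P(L > r)` is bounded. -/
theorem result (μ : Measure ℕ) [IsProbabilityMeasure μ] :
    0 < critical μ ↔ ∃ C : ℝ≥0, ∀ r : ℕ, (r : ℝ≥0∞) ^ 2 * μ (Set.Ioi r) ≤ C :=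
  critical_pos_iff

end Pool.Agent.Results.MP_04d7a1_pr.Criterion
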